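import Pool.Agent.SSF.StmtsC

/-!
# Squad SSF (MP_005a41_gt), row HHO: invariance under homeomorphisms
-/

set_option autoImplicit false

namespace Pool.Agent.SSF.H43

open Set Topology
open Pool.Agent.LSG Pool.Agent.LPR Pool.Agent.SSF

/-- composition with a continuous map -/
def cFo {X Y : Type} [TopologicalSpace X] [TopologicalSpace Y] (φ : X → Y) (hφ : Continuous φ)
    (O : Set Y) (O' : Set X) (h : ∀ x, x ∉ O' → φ x ∉ O) : ↥(Fo O) →L[ℝ] ↥(Fo O') where
  toFun f := ⟨fun x => f.1 (φ x), f.2.1.comp hφ, fun x hx => f.2.2 _ (h x hx)⟩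
  map_add' _ _ := rfl
  map_smul' _ _ := rfl
  cont := by
    have h1 : Continuous fun f : ↥(Fo O) => fun x : X => (f.1 : Y → ℝ) (φ x) :=
      continuous_pi fun x => (continuous_apply (φ x)).comp continuous_subtype_val
    exact h1.subtype_mk _

/-- the same for null sequences -/
def cSg {X Y : Type} [TopologicalSpace X] [TopologicalSpace Y] (φ : X → Y) (hφ : Continuous φ)
    (O : Set Y) (O' : Set X) (h : ∀ x, x ∉ O' → φ x ∉ O) : ↥(Sg O) →L[ℝ] ↥(Sg O') where
  toFun f := ⟨fun q => f.1 (φ q.1, q.2),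
    f.2.1.comp ((hφ.comp continuous_fst).prodMk continuous_snd),
    fun x hx n => f.2.2.1 _ (h x hx) n, fun _ => f.2.2.2 _⟩
  map_add' _ _ := rfl
  map_smul' _ _ := rfl
  cont := by
    have h1 : Continuous fun f : ↥(Sg O) => fun q : X × OnePoint ℕ =>
        (f.1 : Y × OnePoint ℕ → ℝ) (φ q.1, q.2) :=
      continuous_pi fun q => (continuous_apply (φ q.1, q.2)).comp continuous_subtype_val
    exact h1.subtype_mk _

theorem hho : HhoStmt := by
  intro X Y _ _ he hX O hO
  obtain ⟨e⟩ := he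
  obtain ⟨i, p, hip⟩ := hX (e ⁻¹' O) (hO.preimage e.continuous)
  have h1 : ∀ x, x ∉ e ⁻¹' O → e x ∉ O := fun x hx => hx
  have h2 : ∀ y, y ∉ O → e.symm y ∉ e ⁻¹' O := by
    intro y hy h
    apply hy
    have h' : e (e.symm y) ∈ O := h
    rwa [e.apply_symm_apply] at h'
  refine ⟨(cFo e.symm e.symm.continuous (e ⁻¹' O) O h2).comp
      (i.comp (cSg e e.continuous O (e ⁻¹' O) h1)),
    (cSg e.symm e.symm.continuous (e ⁻¹' O) O h2).comp
      (p.comp (cFo e e.continuous O (e ⁻¹' O) h1)), ?_⟩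
  intro F
  have h3 : (cFo e e.continuous O (e ⁻¹' O) h1)
      ((cFo e.symm e.symm.continuous (e ⁻¹' O) O h2)
        (i (cSg e e.continuous O (e ⁻¹' O) h1 F))) = i (cSg e e.continuous O (e ⁻¹' O) h1 F) := by
    refine Subtype.ext (funext fun x => ?_)
    show (i (cSg e e.continuous O (e ⁻¹' O) h1 F)).1 (e.symm (e x)) =
      (i (cSg e e.continuous O (e ⁻¹' O) h1 F)).1 x
    rw [e.symm_apply_apply]
  show (cSg e.symm e.symm.continuous (e ⁻¹' O) O h2)
    (p ((cFo e e.continuous O (e ⁻¹' O) h1)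
      ((cFo e.symm e.symm.continuous (e ⁻¹' O) O h2)
        (i (cSg e e.continuous O (e ⁻¹' O) h1 F))))) = F
  rw [h3, hip]
  refine Subtype.ext (funext fun q => ?_)
  show F.1 (e (e.symm q.1), q.2) = F.1 q
  rw [e.apply_symm_apply]

end Pool.Agent.SSF.H43
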